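import Pool.Agent.H45.CF.Targets

/-!
# FO. Functions of cofinality `ω` in the first case
-/

open Ordinal Cardinal Order Set
open scoped ZFSet

universe u

namespace Pool.Agent.H45.CF

open _root_.HD HD.NF HD.CF Pool.Agent.H45.NF

/-- `δ` is the ordinal of a strong limit cardinal -/
theorem ext_card {δ : Ordinal.{u}} (hδ : Extendible δ) :
    ∃ D : Cardinal.{u}, δ = D.ord ∧ D.IsRegular ∧ D.IsStrongLimit ∧ ℵ₀ < D := by
  obtain ⟨η, hη, θ, j, hE⟩ := All.xa δ hδ 0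
  exact All.xb δ η θ j hE

/-- a cofinal sequence -/
theorem cof_seq {θ : Ordinal.{u}} (hθ : θ.cof = ℵ₀) :
    ∃ t : ℕ → Ordinal.{u}, (∀ n, t n < θ) ∧ ∀ ξ < θ, ∃ n, ξ < t n := by
  have hlim : IsSuccLimit θ := Ordinal.one_lt_cof_iff.1 (by
    rw [hθ]; exact Cardinal.one_lt_aleph0)
  obtain ⟨B, hB, hBl, e, he⟩ := All.vg θ hlim
  classical
  refine ⟨fun n => if e n ∈ B then e n else 0, fun n => ?_, fun ξ hξ => ?_⟩
  · by_cases h : e n ∈ B
    · simp only [h, if_true]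
      exact hBl _ h
    · simp only [h, if_false]
      exact hlim.bot_lt
  · obtain ⟨b, hb, h1, h2⟩ := hB.unb ξ hξ
    obtain ⟨a, ha, h3⟩ := he b h2
    rw [hθ, Cardinal.ord_aleph0] at ha
    obtain ⟨n, rfl⟩ := Ordinal.lt_omega0.1 ha
    refine ⟨n, ?_⟩
    have h4 : e n ∈ B := by rw [h3]; exact h2
    simp only [h4, if_true]
    rw [h3]
    exact h1

/-- the predicate of the unions of sets with codes in a subset of `S` -/
def UP (en : Ordinal.{u} → ZFSet.{u}) (S x : ZFSet.{u}) : Prop :=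
  ∃ I, I ⊆ S ∧ ∀ z, z ∈ x ↔ ∃ c ∈ I, c.IsOrdinal ∧ z ∈ en c.rank

theorem dz_UP {en : Ordinal.{u} → ZFSet.{u}} (h : EN en) {S : ZFSet.{u}} (hS : OD S) (i : ℕ) :
    DZ.{u} fun v => UP en S (v i) := by
  refine DZ.ex (R := fun I v => I ⊆ S ∧ ∀ z, z ∈ v i ↔ ∃ c ∈ I, c.IsOrdinal ∧ z ∈ en c.rank) ?_
  refine DZ.and ?_ (DZ.all ((DZ.mem 0 (i + 2)).iff (DZ.exMem 1 ?_)))
  · refine (DZ.all (R := fun z v => z ∈ v 0 → z ∈ S) ((DZ.mem 0 1).imp
      (DZ.od (R := fun b v => v 0 ∈ b) hS (DZ.mem 1 0)))).congr fun v => ?_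
    exact ⟨fun h z hz => h hz, fun h z hz => h z hz⟩
  · exact dz_en' h (R := fun x v => v 1 ∈ x) 0 (DZ.mem 2 0)

theorem pf_fo (hUN : HD.CF.T_UN.{u}) (hCV : T_CV.{u}) (hFW : T_FW.{u}) : T_FO.{u} := by
  intro δ hδ hA θ f hf hθ
  obtain ⟨⟨y, hfy⟩, hfr⟩ := hf
  obtain ⟨D, hD, hDr, hDs, hD0⟩ := ext_card hδ
  obtain ⟨en, hen⟩ := All.en.{u}
  obtain ⟨t, ht1, ht2⟩ := cof_seq hθ
  have hc : ∀ n, ∃ c, en c = rst f (t n) := fun n => (hen.od _).1 (hfr _ (ht1 n)).od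
  choose c hc using hc
  obtain ⟨K, s, hK1, hK2, hs⟩ := hUN δ hA (⨆ n, c n)
  have hcK : ∀ n, c n < K.ord := fun n => (Ordinal.le_iSup c n).trans_lt hK1
  obtain ⟨β, hβK, hβ0, hβδ, hpos⟩ := hCV δ K s hδ hs hK2 c hcK
  let A : Set Ordinal.{u} := {i | i < K.ord ∧ Pos w0 β {b | s b i}}
  have hADS : DS A := by
    refine DO.and (DO.ltc 0 K.ord) ?_
    refine DO.sub (R := fun m w => Pos m β {b | s b (w 0)}) w0 ?_
    refine DO.sub (R := fun k w => Pos (w 0) k {b | s b (w 1)}) β ?_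
    refine All.da 1 0 (fun b w => s b (w 2)) ?_
    exact DO.s2 (X := fun a b => s a b) hs.dr 0 3
  have hAOD : OD (os K.ord A) := od_os hADS K.ord
  obtain ⟨e, he⟩ := hFW β hβ0 s hs.fn
  refine ⟨2 ^ β.cof, ?_, ZFSet.sep (UP en (os K.ord A)) (V_ (f.rank + 1)),
    od_sep (od_V _) (dz_UP hen hAOD 0), ?_, ?_⟩
  · rw [hD] at hβδ ⊢
    exact Cardinal.ord_lt_ord.2 (hDs.isStrongPrelimit (Cardinal.ord_lt_ord.1 hβδ))
  · rw [sz_iff]
    have h1 : ∀ x : {x : ZFSet.{u} // x ∈ ZFSet.sep (UP en (os K.ord A)) (V_ (f.rank + 1))},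
        UP en (os K.ord A) x.1 := fun x => (ZFSet.mem_sep.1 x.2).2
    choose I hI1 hI2 using h1
    let F : {x : ZFSet.{u} // x ∈ ZFSet.sep (UP en (os K.ord A)) (V_ (f.rank + 1))} →
        ULift.{u + 1} (Set β.cof.ord.ToType) := fun x =>
      ⟨{a | (e (Ordinal.ToType.toOrd a).1).toZFSet ∈ I x}⟩
    have hF : Function.Injective F := by
      intro x x' hxx
      have h2 : ∀ a < β.cof.ord, ((e a).toZFSet ∈ I x ↔ (e a).toZFSet ∈ I x') := by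
        intro a ha
        have h3 := congrArg ULift.down hxx
        have h4 := Set.ext_iff.1 h3 (Ordinal.ToType.mk ⟨a, ha⟩)
        have h5 : (Ordinal.ToType.toOrd (Ordinal.ToType.mk ⟨a, ha⟩)).1 = a := by
          simp [Ordinal.ToType.toOrd]
        simp only [F, Set.mem_ofPred_eq, h5] at h4
        exact h4
      have h3 : ∀ w w', (∀ a < β.cof.ord, ((e a).toZFSet ∈ I w → (e a).toZFSet ∈ I w')) →
          ∀ z ∈ I w, z ∈ I w' := by
        intro w w' h z hz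
        obtain ⟨i, hi, hiA, rfl⟩ := mem_os.1 (hI1 w hz)
        obtain ⟨a, ha, rfl⟩ := he i hiA.2
        exact h a ha hz
      have h4 : I x = I x' := ZFSet.ext fun z =>
        ⟨h3 x x' (fun a ha => (h2 a ha).1) z, h3 x' x (fun a ha => (h2 a ha).2) z⟩
      refine Subtype.ext (ZFSet.ext fun z => ?_)
      rw [hI2 x z, hI2 x' z, h4]
    have h2 := Cardinal.mk_le_of_injective hF
    rwa [Cardinal.mk_uLift, Cardinal.mk_set, Cardinal.mk_ord_toType] at h2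
  · rw [ZFSet.mem_sep]
    refine ⟨by rw [ZFSet.mem_vonNeumann]; exact lt_add_one _,
      ZFSet.sep (fun z => ∃ n, z = (c n).toZFSet) (os K.ord A), fun z hz =>
        (ZFSet.mem_sep.1 hz).1, fun z => ⟨fun hz => ?_, fun hz => ?_⟩⟩
    · obtain ⟨a, ha, w, rfl⟩ := func_pairs hfy z hz
      obtain ⟨n, hn⟩ := ht2 a ha
      refine ⟨(c n).toZFSet, ZFSet.mem_sep.2 ⟨ord_mem_os.2 ⟨hcK n, hcK n, hpos n⟩, n, rfl⟩,
        ZFSet.isOrdinal_toZFSet _, ?_⟩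
      rw [rank_toZFSet, hc]
      exact mem_rst.2 ⟨hz, a, hn, w, rfl⟩
    · obtain ⟨k, hk, -, hz2⟩ := hz
      obtain ⟨-, n, rfl⟩ := ZFSet.mem_sep.1 hk
      rw [rank_toZFSet, hc] at hz2
      exact (mem_rst.1 hz2).1

end Pool.Agent.H45.CF
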