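import Pool.Agent.H45.CF.Targets

/-!
# SL. Embeddings with a partition
-/

open Ordinal Cardinal Order Set
open scoped ZFSet

universe u

namespace Pool.Agent.H45.CF

open _root_.HD HD.NF HD.CF

theorem fib_rs {K : Cardinal.{u}} {s : Ordinal.{u} → Ordinal.{u} → Prop} {i : Ordinal.{u}}
    (hi : i < K.ord) {b : Ordinal.{u}} (hb : b < K.ord) :
    b ∈ fib (rs K.ord K.ord s) i ↔ s b i := by
  unfold fib
  rw [Set.mem_ofPred_eq, pair_mem_rs]
  exact ⟨fun h => h.2.2, fun h => ⟨hb, hi, h⟩⟩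

theorem pf_sl : T_SL.{u} := by
  intro δ K s hδ hs hK β
  obtain ⟨β₀, hβ₀⟩ := All.xc (rs K.ord K.ord s) (od_rs hs.dr _ _)
  obtain ⟨η, hη, θ, j, hE⟩ := All.xa δ hδ (max (max β β₀) K.ord)
  obtain ⟨D, hD, hDr, hDs, hD0⟩ := All.xb δ η θ j hE
  have h1 : β < η := ((le_max_left _ _).trans (le_max_left _ _)).trans_lt hη
  have h2 : β₀ < η := ((le_max_right _ _).trans (le_max_left _ _)).trans_lt hη
  have h3 : K.ord < η := (le_max_right _ _).trans_lt hη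
  obtain ⟨h4, h5⟩ := hβ₀ δ η θ j hE h2
  refine ⟨η, h1, θ, j, ⟨hE, ?_, ?_, Cardinal.isRegular_aleph0, ?_, hs.reg, hK, h3, h3, h4,
    od_rs hs.dr _ _, h5, ?_, ?_⟩⟩
  · rw [hD, hDr.cof_ord]
  · rw [hD, ← Cardinal.ord_aleph0]
    exact Cardinal.ord_lt_ord.2 hD0
  · rw [hD]
    exact Cardinal.ord_lt_ord.2 hD0
  · intro b i i' hb hb'
    obtain ⟨a, ha, c, hc, hR, he⟩ := mem_rs.1 hb
    obtain ⟨a', ha', c', hc', hR', he'⟩ := mem_rs.1 hb'
    obtain ⟨e1, e2⟩ := ZFSet.pair_injective he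
    obtain ⟨e3, e4⟩ := ZFSet.pair_injective he'
    have e5 : a = a' := toZFSet_injective (e1.symm.trans e3)
    subst e5
    have e6 := hs.fn a c c' hR hR'
    rw [e2, e4, e6]
  · intro i hi
    exact (Pos.congr fun b hb => fib_rs hi hb).2 (hs.pos i hi)

end Pool.Agent.H45.CF
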