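import Pool.Agent.H45.CF.Targets

/-!
# UN. Partitions exist in the first case
-/

open Ordinal Cardinal Order Set
open scoped ZFSet

universe u

namespace Pool.Agent.H45.CF

open _root_.HD HD.NF HD.CF

theorem sing_above (o : Ordinal.{u}) : ∃ γ : Cardinal.{u}, ℵ₀ ≤ γ ∧ ¬ γ.IsRegular ∧ o < γ.ord := by
  have h1 : IsSuccLimit (o + ω) := Ordinal.isSuccLimit_add o Ordinal.isSuccLimit_omega0
  have h2 : o < o + ω := by
    conv_lhs => rw [← add_zero o]
    exact (add_lt_add_iff_left o).2 Ordinal.omega0_pos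
  have h3 : o < ω_ (o + ω) :=
    h2.trans_le ((Ordinal.le_preOmega_self _).trans (Ordinal.preOmega_le_omega _))
  refine ⟨ℵ_ (o + ω), Cardinal.aleph0_le_aleph _, fun h => ?_, ?_⟩
  · have h4 := h.cof_ord
    rw [Cardinal.ord_aleph, Ordinal.cof_omega h1, Ordinal.cof_add o Ordinal.omega0_ne_zero,
      Ordinal.cof_omega0] at h4
    have h5 : ℵ_ (0 : Ordinal.{u}) < ℵ_ (o + ω) :=
      Cardinal.aleph_lt_aleph.2 h1.bot_lt
    rw [Cardinal.aleph_zero, ← h4] at h5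
    exact lt_irrefl _ h5
  · rw [Cardinal.ord_aleph]
    exact h3

theorem pf_un (hUM : T_UM.{u}) : HD.CF.T_UN.{u} := by
  intro δ hA β
  obtain ⟨γ, h1, h2, h3⟩ := sing_above (max β δ)
  obtain ⟨-, h4⟩ := hA γ h1 h2 ((le_max_right _ _).trans_lt h3)
  obtain ⟨s, hs⟩ := hUM γ h1 h4
  have h5 : γ.ord < (succ γ).ord := Cardinal.ord_lt_ord.2 (lt_succ γ)
  exact ⟨succ γ, s, ((le_max_left _ _).trans_lt h3).trans h5,
    ((le_max_right _ _).trans_lt h3).trans h5, hs⟩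

end Pool.Agent.H45.CF
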