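import Pool.Agent.H45.CF.Targets

/-!
# AN. Two functions of a long sequence of functions are comparable
-/

open Ordinal Cardinal Order Set
open scoped ZFSet

universe u

namespace Pool.Agent.H45.CF

open _root_.HD HD.NF HD.CF

theorem clb_ioi {K : Ordinal.{u}} (hlim : IsSuccLimit K) {i : Ordinal.{u}} (hi : i < K) :
    Clb K (Ioi i) := by
  refine ⟨fun a ha => ⟨succ (max i a), hlim.succ_lt (max_lt hi ha),
    (le_max_right _ _).trans_lt (lt_succ _),
      show i < succ (max i a) from (le_max_left _ _).trans_lt (lt_succ _)⟩,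
    fun x hx h0 h => ?_⟩
  obtain ⟨z, hz, -, hz2⟩ := h 0 h0
  exact lt_trans hz2 hz

theorem pf_an (hPG : T_PG.{u}) : T_AN.{u} := by
  intro M lam hM h1 hlam F C k hC
  have h2 : (2 : Cardinal.{u}) ≤ lam := by
    have h3 : (((1 : ℕ).succ : ℕ) : Cardinal.{u}) ≤ lam := by
      rw [Cardinal.nat_succ]
      exact succ_le_of_lt (by simpa using h1)
    exact_mod_cast h3
  have h2M : (2 : Cardinal.{u}) ^ M ≤ lam := by
    rw [← hlam]
    exact Cardinal.power_le_power_right h2
  have hMl : M < lam := (Cardinal.cantor M).trans_le h2M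
  have hl0 : ℵ₀ ≤ lam := hM.trans hMl.le
  have hN : (succ M).IsRegular := Cardinal.isRegular_succ hM
  have hK : (succ lam).IsRegular := Cardinal.isRegular_succ hl0
  have hNK : succ M < succ lam := (succ_le_of_lt hMl).trans_lt (lt_succ lam)
  have hK0 : ℵ₀ < succ lam := hl0.trans_lt (lt_succ lam)
  have hKc : (succ lam).ord.cof = succ lam := hK.cof_ord
  have hlim : IsSuccLimit (succ lam).ord :=
    Pool.Agent.H33.HD.RF.lim_of_cof (by rw [hKc]; exact hK0)
  -- the minimal values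
  have hk1 : ∀ b a : Ordinal.{u}, ∃ j, ({j | j < b ∧ F b a ≤ F j a}.Nonempty →
      (j < b ∧ F b a ≤ F j a) ∧ ∀ j', j' < b → F b a ≤ F j' a → F j a ≤ F j' a) ∧
      (¬ {j | j < b ∧ F b a ≤ F j a}.Nonempty → j = 0) := by
    intro b a
    by_cases h : {j | j < b ∧ F b a ≤ F j a}.Nonempty
    · obtain ⟨j, hj, hj2⟩ := HD.exists_min {j | j < b ∧ F b a ≤ F j a} h (fun j => F j a)
      exact ⟨j, fun _ => ⟨hj, fun j' h1 h2 => hj2 j' ⟨h1, h2⟩⟩, fun h' => absurd h h'⟩
    · exact ⟨0, fun h' => absurd h' h, fun _ => rfl⟩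
  choose kk hk1 hk0 using hk1
  have hh : ∀ b : Ordinal.{u}, ∃ s, Cf (succ M).ord b → s < b ∧ ∀ a < M.ord, kk b a ≤ s := by
    intro b
    by_cases h : Cf (succ M).ord b
    · have hcof : b.cof = succ M := Cardinal.ord_injective h
      have hb0 : 0 < b := by
        rcases eq_or_ne b 0 with rfl | hb
        · rw [Ordinal.cof_zero] at hcof
          exact absurd hcof.symm (succ_ne_bot M)
        · exact pos_iff_ne_zero.2 hb
      obtain ⟨s, hs1, hs2⟩ := Pool.Agent.H3.HD.exists_bound (ρ := b) (τ := M.ord)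
        (by rw [Cardinal.card_ord, hcof]; exact lt_succ M) (kk b) (fun a _ => by
          by_cases h : {j | j < b ∧ F b a ≤ F j a}.Nonempty
          · exact (hk1 b a h).1.1
          · rw [hk0 b a h]; exact hb0)
      exact ⟨s, fun _ => ⟨hs1, hs2⟩⟩
    · exact ⟨0, fun h' => absurd h' h⟩
  choose hh hh1 using hh
  have hX : Pos (succ M).ord (succ lam).ord {b | Cf (succ M).ord b} :=
    (All.vc (succ M) (succ lam).ord hN (by rw [hKc]; exact hNK)).mono fun b _ _ h => h
  obtain ⟨a₀, ha₀, hpos⟩ := All.vd (succ M).ord (succ lam) hK hK0 _ hh hX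
    (fun b hb _ _ => (hh1 b hb).1)
  classical
  -- the colours
  have hm : ∀ b a : Ordinal.{u}, min (kk b a) a₀ < succ a₀ := fun b a =>
    (min_le_right _ _).trans_lt (lt_succ a₀)
  let g : Ordinal.{u} → ((M.ord.ToType → (succ a₀).ToType) × Set M.ord.ToType ×
      Set M.ord.ToType) × C := fun b =>
    ((fun t => Ordinal.ToType.mk ⟨min (kk b (Ordinal.ToType.toOrd t).1) a₀, hm _ _⟩,
      {t | {j | j < b ∧ F b (Ordinal.ToType.toOrd t).1 ≤ F j (Ordinal.ToType.toOrd t).1}.Nonempty},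
      {t | F b (Ordinal.ToType.toOrd t).1 =
        F (kk b (Ordinal.ToType.toOrd t).1) (Ordinal.ToType.toOrd t).1}), k b)
  have hcard : #(((M.ord.ToType → (succ a₀).ToType) × Set M.ord.ToType ×
      Set M.ord.ToType) × C) < (succ lam).ord.cof := by
    rw [hKc]
    refine lt_of_le_of_lt ?_ (lt_succ lam)
    have e1 : #(M.ord.ToType → (succ a₀).ToType) ≤ lam := by
      rw [← Cardinal.power_def, Cardinal.mk_ord_toType]
      have h3 : #(succ a₀).ToType ≤ lam := by
        rw [Cardinal.mk_toType]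
        exact lt_succ_iff.1 (Cardinal.lt_ord.1 (hlim.succ_lt ha₀))
      calc #(succ a₀).ToType ^ M ≤ lam ^ M := Cardinal.power_le_power_right h3
        _ = lam := hlam
    have e2 : #(Set M.ord.ToType) ≤ lam := by
      rw [Cardinal.mk_set, Cardinal.mk_ord_toType]
      exact h2M
    have e3 : #(Set M.ord.ToType × Set M.ord.ToType) ≤ lam := by
      simp only [Cardinal.mk_prod, Cardinal.lift_id]
      exact Cardinal.mul_le_of_le hl0 e2 e2
    have e4 : #((M.ord.ToType → (succ a₀).ToType) × Set M.ord.ToType × Set M.ord.ToType) ≤ lam := by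
      simp only [Cardinal.mk_prod, Cardinal.lift_id]
      exact Cardinal.mul_le_of_le hl0 e1 e3
    simp only [Cardinal.mk_prod, Cardinal.lift_id]
    exact Cardinal.mul_le_of_le hl0 e4 hC
  obtain ⟨d, hd⟩ := hPG (succ M).ord (succ lam).ord (by rw [hKc]; exact hK0) _ hcard _ g hpos
  obtain ⟨i, hi, -, ⟨⟨hiX, hia⟩, hid⟩, -⟩ := hd _ (clb_ioi hlim hlim.bot_lt)
  obtain ⟨i', hi', hii, ⟨⟨hiX', hia'⟩, hid'⟩, -⟩ := hd _ (clb_ioi hlim hi)
  have hgg : g i = g i' := by rw [hid, hid']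
  refine ⟨i, i', hii, hi', congrArg Prod.snd hgg, fun a ha => ?_⟩
  have htt : (Ordinal.ToType.toOrd (Ordinal.ToType.mk ⟨a, ha⟩)).1 = a := by
    simp [Ordinal.ToType.toOrd]
  have c1 : kk i a = kk i' a := by
    have h3 := congrFun (congrArg (fun x => x.1.1) hgg) (Ordinal.ToType.mk ⟨a, ha⟩)
    have h4 := congrArg Subtype.val (Ordinal.ToType.mk.injective h3)
    simp only [htt] at h4
    have h5 := (hh1 i hiX).2 a ha
    have h6 := (hh1 i' hiX').2 a ha
    rw [hia] at h5
    rw [hia'] at h6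
    rwa [min_eq_left h5, min_eq_left h6] at h4
  have c2 : {j | j < i ∧ F i a ≤ F j a}.Nonempty ↔ {j | j < i' ∧ F i' a ≤ F j a}.Nonempty := by
    have h3 := congrArg (fun x => x.1.2.1) hgg
    have h4 := Set.ext_iff.1 h3 (Ordinal.ToType.mk ⟨a, ha⟩)
    simp only [g, Set.mem_ofPred_eq, htt] at h4
    exact h4
  have c3 : F i a = F (kk i a) a ↔ F i' a = F (kk i' a) a := by
    have h3 := congrArg (fun x => x.1.2.2) hgg
    have h4 := Set.ext_iff.1 h3 (Ordinal.ToType.mk ⟨a, ha⟩)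
    simp only [g, Set.mem_ofPred_eq, htt] at h4
    exact h4
  by_contra hlt
  have hlt' : F i' a < F i a := not_le.1 hlt
  have hne : {j | j < i' ∧ F i' a ≤ F j a}.Nonempty := ⟨i, hii, hlt'.le⟩
  have hne2 := c2.2 hne
  have h3 : F (kk i' a) a ≤ F i a := (hk1 i' a hne).2 i hii hlt'.le
  have h4 : F i a ≤ F (kk i a) a := (hk1 i a hne2).1.2
  have h5 : F i a = F (kk i a) a := le_antisymm h4 (by rw [c1]; exact h3)
  have h6 := c3.1 h5
  rw [h6, ← c1, ← h5] at hlt'
  exact lt_irrefl _ hlt'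

end Pool.Agent.H45.CF
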