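import Pool.Agent.H45.CF.Targets
import Pool.Agent.H7.HD.All4
import Pool.Agent.H45.NF.CL

/-!
# NB. Sequences which are cofinal in an ordinal which is regular in HOD
-/

open Ordinal Cardinal Order Set
open scoped ZFSet

universe u

namespace Pool.Agent.H45.CF

open _root_.HD HD.NF HD.CF Pool.Agent.H45.NF

theorem pf_nb : HD.CF.T_NB.{u} := by
  intro α μ s hα hα0 hμ hs hB
  obtain ⟨Z, hZ, hSz, hsZ⟩ := hB
  let X : Set Ordinal.{u} := {c | c < α ∧ ∃ t ∈ Z, ∃ n ∈ (ω : Ordinal.{u}).toZFSet,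
    ZFSet.pair n c.toZFSet ∈ t ∧ ∀ y, ZFSet.pair n y ∈ t → y = c.toZFSet}
  have hXα : X ⊆ Iio α := fun c hc => hc.1
  have hDS : DS X := by
    have h1 : DZ.{u} fun v => v 0 ∈ α.toZFSet ∧ ∃ t ∈ Z, ∃ n ∈ (ω : Ordinal.{u}).toZFSet,
        (∃ p ∈ t, p = ZFSet.pair n (v 0)) ∧ ∀ p ∈ t, ∀ y, p = ZFSet.pair n y → y = v 0 := by
      refine DZ.and ?_ ?_
      · exact DZ.od (R := fun b v => v 0 ∈ b) (OD.ordinal α) (DZ.mem 1 0)
      · refine DZ.od (R := fun b v => ∃ t ∈ b, ∃ n ∈ (ω : Ordinal.{u}).toZFSet,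
          (∃ p ∈ t, p = ZFSet.pair n (v 0)) ∧ ∀ p ∈ t, ∀ y, p = ZFSet.pair n y → y = v 0) hZ
          (DZ.exMem 0 ?_)
        refine DZ.od (R := fun b v => ∃ n ∈ b,
          (∃ p ∈ v 0, p = ZFSet.pair n (v 2)) ∧ ∀ p ∈ v 0, ∀ y, p = ZFSet.pair n y → y = v 2)
          (OD.ordinal ω) (DZ.exMem 0 ?_)
        refine DZ.and (DZ.exMem 2 (dz_pair 0 1 5)) ?_
        exact DZ.allMem 2 (DZ.all ((dz_pair 1 2 0).imp (DZ.eq 0 6)))
    refine h1.do.congr fun w => ?_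
    have e0 : ov w 0 = (w 0).toZFSet := rfl
    simp only [X, mem_ofPred_eq, e0, toZFSet_mem_toZFSet_iff]
    refine and_congr_right fun _ => ?_
    constructor
    · rintro ⟨t, ht, n, hn, h2, h3⟩
      exact ⟨t, ht, n, hn, ⟨_, h2, rfl⟩, fun p hp y hy => h3 y (hy ▸ hp)⟩
    · rintro ⟨t, ht, n, hn, ⟨p, hp, rfl⟩, h3⟩
      exact ⟨t, ht, n, hn, hp, fun y hy => h3 _ hy y rfl⟩
  have hun : ∀ b < α, ∃ z ∈ X, b ≤ z := by
    intro b hb
    obtain ⟨n, c, hbc, hnc⟩ := hs.2 b hb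
    have h1 := ZFSet.pair_mem_prod.1 (hs.1.1 hnc)
    refine ⟨c, ⟨toZFSet_mem_toZFSet_iff.1 h1.2, s, hsZ, n.toZFSet, h1.1, hnc, fun y hy => ?_⟩, hbc⟩
    obtain ⟨y0, -, h3⟩ := hs.1.2 _ h1.1
    rw [h3 y hy, h3 _ hnc]
  have hn := All.ot α X hα hDS hXα hun
  choose z hz using hn
  have h1 : Cardinal.lift.{u + 1} α.card ≤ #X := by
    rw [← Cardinal.mk_Iio_ordinal]
    refine Cardinal.mk_le_of_injective (f := fun i : Iio α => (⟨z i.1 i.2, (hz i.1 i.2).1⟩ : X)) ?_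
    intro i j hij
    have h2 : z i.1 i.2 = z j.1 j.2 := congrArg Subtype.val hij
    have h3 := (All.vh X).2.1
    rcases lt_trichotomy i.1 j.1 with h | h | h
    · exact absurd h2 (((h3 _ _ _ _ (hz i.1 i.2) (hz j.1 j.2)).1 h).ne)
    · exact Subtype.ext h
    · exact absurd h2 (((h3 _ _ _ _ (hz j.1 j.2) (hz i.1 i.2)).1 h).ne')
  have h2 : #X ≤ Cardinal.lift.{u + 1} μ * ℵ₀ := by
    have h3 : ∀ c : X, ∃ p : {x : ZFSet.{u} // x ∈ Z} × ℕ,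
        ∀ y, ZFSet.pair (Nat.cast p.2 : Ordinal.{u}).toZFSet y ∈ p.1.1 ↔ y = c.1.toZFSet := by
      rintro ⟨c, hc, t, ht, n, hn, h4, h5⟩
      obtain ⟨a, ha, rfl⟩ := mem_toZFSet_iff.1 hn
      obtain ⟨k, rfl⟩ := Ordinal.lt_omega0.1 ha
      exact ⟨(⟨t, ht⟩, k), fun y => ⟨h5 y, fun h => h ▸ h4⟩⟩
    choose p hp using h3
    refine (Cardinal.mk_le_of_injective (f := p) fun c d hcd => ?_).trans ?_
    · have h4 := (hp c d.1.toZFSet).1 (by rw [hcd]; exact (hp d _).2 rfl)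
      exact Subtype.ext (toZFSet_injective h4.symm)
    · rw [Cardinal.mk_prod, Cardinal.mk_nat, Cardinal.lift_aleph0, Cardinal.lift_uzero]
      exact mul_le_mul' (sz_iff.1 hSz) le_rfl
  have h3 : Cardinal.lift.{u + 1} μ * ℵ₀ < Cardinal.lift.{u + 1} α.card :=
    Cardinal.mul_lt_of_lt (by rw [← Cardinal.lift_aleph0.{u + 1, u}]; exact Cardinal.lift_le.2 hα0.le)
      (Cardinal.lift_lt.2 hμ) (by rw [← Cardinal.lift_aleph0.{u + 1, u}]; exact Cardinal.lift_lt.2 hα0)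
  exact absurd (h1.trans h2) (not_le.2 h3)

end Pool.Agent.H45.CF
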