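import Pool.Agent.H45.CF.SL
import Pool.Agent.H45.CF.UN
import Pool.Agent.H7.HD.LocR

/-!
# SR. Relations of large cofinality in the first case
-/

open Ordinal Cardinal Order Set
open scoped ZFSet

universe u

namespace Pool.Agent.H45.CF

open _root_.HD HD.NF HD.CF

/-- The statement which is moved by the embedding. -/
def SRP (v : ℕ → ZFSet.{u}) : Prop := ∀ ξ ∈ v 1, ∃ q, q ⊆ v 0 ∧
  ((∀ z ∈ q, ∃ a ∈ ξ, ∃ c ∈ v 3, z = ZFSet.pair a c) ∧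
  ((∀ a ∈ ξ, ∀ c ∈ v 3, ZFSet.pair a c ∈ v 0 → ZFSet.pair a c ∈ q) ∧
    ((v 2).IsOrdinal ∧ ODb (v 2).rank q)))

theorem loc_SRP : Loc.{u} SRP := by
  unfold SRP
  refine Loc.allMem (R := fun ξ v => ∃ q, q ⊆ v 0 ∧
    ((∀ z ∈ q, ∃ a ∈ ξ, ∃ c ∈ v 3, z = ZFSet.pair a c) ∧
    ((∀ a ∈ ξ, ∀ c ∈ v 3, ZFSet.pair a c ∈ v 0 → ZFSet.pair a c ∈ q) ∧
      ((v 2).IsOrdinal ∧ ODb (v 2).rank q)))) 1 ?_
  refine Loc.exSub (R := fun q v =>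
    ((∀ z ∈ q, ∃ a ∈ v 0, ∃ c ∈ v 4, z = ZFSet.pair a c) ∧
    ((∀ a ∈ v 0, ∀ c ∈ v 4, ZFSet.pair a c ∈ v 1 → ZFSet.pair a c ∈ q) ∧
      ((v 3).IsOrdinal ∧ ODb (v 3).rank q)))) 1 ?_
  refine Loc.and ?_ (Loc.and ?_ ?_)
  · refine Loc.allMem (R := fun z v => ∃ a ∈ v 1, ∃ c ∈ v 5, z = ZFSet.pair a c) 0 ?_
    refine Loc.exMem (R := fun a v => ∃ c ∈ v 6, v 0 = ZFSet.pair a c) 2 ?_
    refine Loc.exMem (R := fun c v => v 1 = ZFSet.pair (v 0) c) 7 ?_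
    exact loc_pair 2 1 0
  · refine Loc.allMem (R := fun a v => ∀ c ∈ v 5, ZFSet.pair a c ∈ v 2 →
      ZFSet.pair a c ∈ v 0) 1 ?_
    refine Loc.allMem (R := fun c v => ZFSet.pair (v 0) c ∈ v 3 →
      ZFSet.pair (v 0) c ∈ v 1) 6 ?_
    exact (loc_pmem 1 0 4).imp (loc_pmem 1 0 2)
  · exact (t_RL.{u}.ren fun n => if n = 0 then 0 else 4)

theorem od_of_b {β : Ordinal.{u}} {x : ZFSet.{u}} (h : ODb β x) : OD x := by
  obtain ⟨N, -, h1, h2⟩ := h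
  exact od_iff_nm.2 ⟨N, h1, h2⟩

theorem pf_sr (hUN : HD.CF.T_UN.{u}) : HD.CF.T_SR.{u} := by
  intro δ hδ hA θ hθ lam R hRl hR
  -- the initial parts have names
  have hOD : ∀ ξ < θ, OD (rs ξ lam R) := by
    intro ξ hξ
    have h1 : rs ξ lam R = rs ξ lam fun a c => a < ξ ∧ R a c := by
      ext z
      rw [mem_rs, mem_rs]
      constructor
      · rintro ⟨a, ha, c, hc, h, e⟩
        exact ⟨a, ha, c, hc, ⟨ha, h⟩, e⟩
      · rintro ⟨a, ha, c, hc, h, e⟩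
        exact ⟨a, ha, c, hc, h.2, e⟩
    rw [h1]
    exact od_rs (hR ξ hξ) _ _
  have hN : ∀ ξ : Iio θ, ∃ N : Nm.{u}, N.ok ∧ N.den (rs ξ.1 lam R) := fun ξ =>
    od_iff_nm.1 (hOD ξ.1 ξ.2)
  choose N hN1 hN2 using hN
  let b0 : Ordinal.{u} := succ (⨆ ξ : Iio θ, (N ξ).a)
  have hb0 : ∀ ξ < θ, ODb b0 (rs ξ lam R) := fun ξ hξ =>
    ⟨N ⟨ξ, hξ⟩, lt_succ_of_le (Ordinal.le_iSup (fun ξ : Iio θ => (N ξ).a) ⟨ξ, hξ⟩),
      hN1 _, hN2 _⟩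
  obtain ⟨K, s, hK1, hK2, hP⟩ := hUN δ hA (max (max θ lam) b0)
  obtain ⟨η, hη, θ', j, hS⟩ := pf_sl δ K s hδ hP hK2 K.ord
  have hE := hS.emb
  have hθK : θ < K.ord := ((le_max_left _ _).trans (le_max_left _ _)).trans_lt hK1
  have hlK : lam < K.ord := ((le_max_right _ _).trans (le_max_left _ _)).trans_lt hK1
  have hbK : b0 < K.ord := (le_max_right _ _).trans_lt hK1
  have hθη : θ < η := hθK.trans hη
  have hlη : lam < η := hlK.trans hη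
  have hbη : b0 < η := hbK.trans hη
  have hgd : Gd η := hE.gd
  let r : ZFSet.{u} := rs θ lam R
  have hrV : r ∈ V_ η := by
    refine mem_V_of_sub (y := ZFSet.prod θ.toZFSet lam.toZFSet) ?_
      (hgd.prod (Gd.ord.2 hθη) (Gd.ord.2 hlη))
    intro z hz
    obtain ⟨a, ha, c, hc, -, rfl⟩ := mem_rs.1 hz
    exact ZFSet.pair_mem_prod.2 ⟨toZFSet_mem_toZFSet_iff.2 ha, toZFSet_mem_toZFSet_iff.2 hc⟩
  have hmem : ∀ z ∈ [r, θ.toZFSet, b0.toZFSet, lam.toZFSet], z ∈ V_ η := by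
    simp only [List.mem_cons, List.not_mem_nil, or_false, forall_eq_or_imp, forall_eq]
    exact ⟨hrV, Gd.ord.2 hθη, Gd.ord.2 hbη, Gd.ord.2 hlη⟩
  have t1 := hE.trl loc_SRP [r, θ.toZFSet, b0.toZFSet, lam.toZFSet] hmem
  have t2 : SRP (sv [r, θ.toZFSet, b0.toZFSet, lam.toZFSet]) := by
    intro ξ' hξ'
    obtain ⟨ξ, hξ, rfl⟩ := mem_toZFSet_iff.1 (show ξ' ∈ θ.toZFSet from hξ')
    refine ⟨rs ξ lam R, fun z hz => ?_, fun z hz => ?_, fun a ha c hc h => ?_, ?_, ?_⟩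
    · obtain ⟨a, ha, c, hc, h, rfl⟩ := mem_rs.1 hz
      exact pair_mem_rs.2 ⟨ha.trans hξ, hc, h⟩
    · obtain ⟨a, ha, c, hc, h, rfl⟩ := mem_rs.1 hz
      exact ⟨_, toZFSet_mem_toZFSet_iff.2 ha, _, toZFSet_mem_toZFSet_iff.2 hc, rfl⟩
    · obtain ⟨a, ha', rfl⟩ := mem_toZFSet_iff.1 ha
      obtain ⟨c, hc', rfl⟩ := mem_toZFSet_iff.1 (show c ∈ lam.toZFSet from hc)
      exact pair_mem_rs.2 ⟨ha', hc', (pair_mem_rs.1 (show ZFSet.pair a.toZFSet c.toZFSet ∈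
        rs θ lam R from h)).2.2⟩
    · exact ZFSet.isOrdinal_toZFSet _
    · show ODb (b0.toZFSet).rank _
      rw [rank_toZFSet]
      exact hb0 ξ hξ
  have t3 := t1.1 t2
  have t4 : ∀ ξ ∈ j θ.toZFSet, ∃ q, q ⊆ j r ∧
      ((∀ z ∈ q, ∃ a ∈ ξ, ∃ c ∈ j lam.toZFSet, z = ZFSet.pair a c) ∧
      ((∀ a ∈ ξ, ∀ c ∈ j lam.toZFSet, ZFSet.pair a c ∈ j r → ZFSet.pair a c ∈ q) ∧
        ((j b0.toZFSet).IsOrdinal ∧ ODb (j b0.toZFSet).rank q))) := t3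
  -- the supremum
  obtain ⟨ρ, hρ1, hρ2⟩ : ∃ ρ < Jo j θ, ∀ x < θ, Jo j x < ρ := by
    have hc : η < (Jo j θ).cof.ord := by
      have hκη : θ.cof.ord < η := ((Ordinal.ord_cof_le θ)).trans_lt hθη
      have h1 := hE.trl All.la.{u} [θ.cof.ord.toZFSet, θ.toZFSet] (by
        simp only [List.mem_cons, List.not_mem_nil, or_false, forall_eq_or_imp, forall_eq]
        exact ⟨Gd.ord.2 hκη, Gd.ord.2 hθη⟩)
      have h2 : (j θ.cof.ord.toZFSet).IsOrdinal ∧ (j θ.toZFSet).IsOrdinal ∧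
          Cf (j θ.cof.ord.toZFSet).rank (j θ.toZFSet).rank := h1.1 ⟨ZFSet.isOrdinal_toZFSet _,
            ZFSet.isOrdinal_toZFSet _, by
              show Cf (θ.cof.ord.toZFSet).rank (θ.toZFSet).rank
              rw [rank_toZFSet, rank_toZFSet]
              rfl⟩
      have h3 := h2.2.2
      rw [hE.ord hκη, hE.ord hθη, rank_toZFSet, rank_toZFSet] at h3
      have h4 : (Jo j θ).cof.ord = Jo j θ.cof.ord := h3
      rw [h4]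
      refine hE.Jo_crit.trans_le ?_
      exact (hE.le_iff (hθ.trans_lt hκη) hκη).2 hθ
    have hc2 : θ.card < (Jo j θ).cof := by
      have h1 : θ < (Jo j θ).cof.ord := hθη.trans hc
      exact Cardinal.lt_ord.1 h1
    refine ⟨⨆ x : Iio θ, Jo j x.1 + 1, ?_, fun x hx => ?_⟩
    · refine lift_iSup_add_one_lt_of_lt_cof ?_ fun x => ?_
      · rw [Cardinal.mk_Iio_ordinal, Cardinal.lift_lift, ← Ordinal.lift_cof]
        exact Cardinal.lift_lt.2 hc2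
      · exact (hE.lt_iff ((mem_Iio.1 x.2).trans hθη) hθη).2 x.2
    · have h1 := Ordinal.le_iSup (fun x : Iio θ => Jo j x.1 + 1) ⟨x, hx⟩
      exact lt_of_lt_of_le (lt_add_one _) h1
  obtain ⟨q, hq1, hq2, hq3, -, hq4⟩ := t4 ρ.toZFSet (by
    rw [hE.ord hθη]
    exact toZFSet_mem_toZFSet_iff.2 hρ1)
  have hq : OD q := od_of_b hq4
  have key : ∀ a < θ, ∀ c < lam, (R a c ↔
      ZFSet.pair (Jo j a).toZFSet (Jo j c).toZFSet ∈ q) := by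
    intro a ha c hc
    have haη := ha.trans hθη
    have hcη := hc.trans hlη
    have h1 : R a c ↔ ZFSet.pair a.toZFSet c.toZFSet ∈ r :=
      ⟨fun h => pair_mem_rs.2 ⟨ha, hc, h⟩, fun h => (pair_mem_rs.1 h).2.2⟩
    rw [h1, hE.opair haη hcη hrV]
    constructor
    · intro h
      refine hq3 _ (toZFSet_mem_toZFSet_iff.2 (hρ2 a ha)) _ ?_ h
      rw [hE.ord hlη]
      exact toZFSet_mem_toZFSet_iff.2 ((hE.lt_iff hcη hlη).2 hc)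
    · exact fun h => hq1 h
  have hJ := All.xg _ _ _ _ _ _ _ _ hS
  have hQ : DR fun a' c' => ZFSet.pair a'.toZFSet c'.toZFSet ∈ q := hq.dr
  have h1 : DO.{u} fun w => w 0 < θ ∧ (w 1 < lam ∧ ∃ a', (w 0 < K.ord ∧ a' = Jo j (w 0)) ∧
      ∃ c', (w 1 < K.ord ∧ c' = Jo j (w 1)) ∧ ZFSet.pair a'.toZFSet c'.toZFSet ∈ q) := by
    refine (DO.ltc 0 θ).and ((DO.ltc 1 lam).and ?_)
    refine DO.ex (R := fun a' w => (w 0 < K.ord ∧ a' = Jo j (w 0)) ∧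
      ∃ c', (w 1 < K.ord ∧ c' = Jo j (w 1)) ∧ ZFSet.pair a'.toZFSet c'.toZFSet ∈ q) ?_
    refine DO.and (DO.s2 (X := fun a b => a < K.ord ∧ b = Jo j a) hJ 1 0) ?_
    refine DO.ex (R := fun c' w => (w 2 < K.ord ∧ c' = Jo j (w 2)) ∧
      ZFSet.pair (w 0).toZFSet c'.toZFSet ∈ q) ?_
    exact DO.and (DO.s2 (X := fun a b => a < K.ord ∧ b = Jo j a) hJ 3 0)
      (DO.s2 (X := fun a b => ZFSet.pair a.toZFSet b.toZFSet ∈ q) hQ 1 0)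
  refine h1.congr fun w => ?_
  refine and_congr_right fun h0 => ?_
  constructor
  · intro h
    have h2 := hRl _ _ h
    exact ⟨h2, _, ⟨h0.trans hθK, rfl⟩, _, ⟨h2.trans hlK, rfl⟩, (key _ h0 _ h2).1 h⟩
  · rintro ⟨h2, a', ⟨-, rfl⟩, c', ⟨-, rfl⟩, h⟩
    exact (key _ h0 _ h2).2 h

end Pool.Agent.H45.CF
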