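import Pool.Agent.H45.CF.Main
import Pool.Agent.H45.CF.NB
import Pool.Agent.H45.CF.SR
import Pool.Agent.H11.CF.UM
import Pool.Agent.H46.CF.CV
import Pool.Agent.H86.CF.FS
import Pool.Agent.H86.CF.FW
import Pool.Agent.H94.CF.PG

/-!
# The theorem
-/

universe u

namespace Pool.Agent.H45.CF

theorem goal : HD.CF.Goal.{u} :=
  main Pool.Agent.H86.CF.pf_FS Pool.Agent.H94.CF.PG.pf_PG Pool.Agent.H11.CF.pf_UM
    (Pool.Agent.H46.CF.pf_CV pf_sl) Pool.Agent.H86.CF.pf_FW pf_nb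
    (pf_sr (pf_un Pool.Agent.H11.CF.pf_UM))

end Pool.Agent.H45.CF
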