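import Pool.Agent.H45.CF.Targets

/-!
# BL. The theorem on functions of uncountable cofinality
-/

open Ordinal Cardinal Order Set
open scoped ZFSet

universe u

namespace Pool.Agent.H45.CF

open _root_.HD HD.NF HD.CF

theorem pf_bl (hCZ : T_CZ.{u}) : T_BL.{u} := by
  intro μ α hα h1 hμ f hf
  obtain ⟨en, hen⟩ := All.en.{u}
  have hlim : IsSuccLimit α := Pool.Agent.H33.HD.RF.lim_of_cof hα
  obtain ⟨c₀, hc₀⟩ := (hen.od _).1 (OD.ordinal α)
  have hE : ∀ b, b < α → b ∈ E en c₀ := by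
    intro b hb
    show b.toZFSet ∈ en c₀
    rw [hc₀]
    exact toZFSet_mem_toZFSet_iff.2 hb
  have hunivpos : Pos w0 α Set.univ := All.vc ℵ₀ α Cardinal.isRegular_aleph0 hα
  by_contra hBl
  -- a minimal element
  obtain ⟨m, ⟨hm, hmB⟩, hmin⟩ : ∃ m, (LB μ α m ∧ ¬ Bl μ m) ∧
      ∀ g, LB μ α g → ¬ Bl μ g → ¬ Lw en μ α c₀ g m := by
    by_contra hno
    push Not at hno
    choose! nx h1 h2 h3 using hno
    let s : ℕ → ZFSet.{u} := fun n => nx^[n] f
    have hs : ∀ n, LB μ α (s n) ∧ ¬ Bl μ (s n) := by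
      intro n
      induction n with
      | zero => exact ⟨hf, hBl⟩
      | succ n ih =>
        have e : s (n + 1) = nx (s n) := Function.iterate_succ_apply' nx n f
        rw [e]
        exact ⟨h1 _ ih, h2 _ ih⟩
    have hlt : ∀ n, Lw en μ α c₀ (s (n + 1)) (s n) := by
      intro n
      have e : s (n + 1) = nx (s n) := Function.iterate_succ_apply' nx n f
      rw [e]
      exact h3 _ (hs n)
    have hω : (ω : Ordinal.{u}).card < α.cof := by
      rw [Ordinal.card_omega0]; exact hα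
    have hnull := All.va w0 α hα ω hω (fun i => {γ | γ ∈ E en c₀ ∧ ∃ n : ℕ, i = n ∧
      ¬ cd en μ (s (n + 1)) γ < cd en μ (s n) γ}) (fun i hi => by
        obtain ⟨n, rfl⟩ := Ordinal.lt_omega0.1 hi
        intro hP
        refine hlt n (hP.mono fun b _ hb _ => ?_)
        obtain ⟨hb1, k, hk, hb2⟩ := hb
        have : n = k := by exact_mod_cast hk
        subst this
        exact ⟨hb1, hb2⟩)
    obtain ⟨γ, hγ, -, hγ1, -⟩ := pos_diff All.va hα hunivpos hnull univ
      ⟨fun a ha => ⟨succ a, hlim.succ_lt ha, lt_succ a, Set.mem_univ _⟩,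
        fun _ _ _ _ => Set.mem_univ _⟩
    have hdec : ∀ n, cd en μ (s (n + 1)) γ < cd en μ (s n) γ := by
      intro n
      by_contra hn
      exact hγ1.2 ⟨(n : Ordinal.{u}), Ordinal.natCast_lt_omega0 n, hE γ hγ, n, rfl, hn⟩
    have hanti : StrictAnti fun n => cd en μ (s n) γ := strictAnti_nat_of_succ_lt hdec
    exact absurd hanti (not_strictAnti_of_wellFoundedLT _)
  obtain ⟨Z, hZ, hZm⟩ := Pool.Agent.H45.NF.pf_dw en hen μ α c₀ (m.rank + 1)
  have hmZ : m ∈ Z := by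
    refine (hZm m).2 ⟨?_, hm, hmB, hmin⟩
    rw [ZFSet.mem_vonNeumann]
    exact lt_add_one _
  have hsz := hCZ en hen μ α Z hα h1 hμ (fun g hg => ((hZm g).1 hg).2.1) (by
    intro g hg h hh
    obtain ⟨-, g1, g2, g3⟩ := (hZm g).1 hg
    obtain ⟨-, k1, k2, k3⟩ := (hZm h).1 hh
    have := k3 g g1 g2
    unfold HD.NF.Lw at this
    rw [not_not] at this
    exact this.mono fun b _ hb _ => hb.2)
  exact hmB ⟨Z, hZ, hsz, hmZ⟩

end Pool.Agent.H45.CF
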