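import Pool.Agent.H45.CF.Targets

/-!
# CZ. The size of a set of sequences which are minimal with respect to each other
-/

open Ordinal Cardinal Order Set
open scoped ZFSet

universe u

namespace Pool.Agent.H45.CF

open _root_.HD HD.NF HD.CF

theorem pf_cz (hAN : T_AN.{u}) : T_CZ.{u} := by
  intro en hen lam α Z hα h1 hlam hLB hpos
  by_contra hsz
  obtain ⟨z, hz, hinj⟩ := Pool.Agent.H45.NF.not_sz hsz
  have hlim : IsSuccLimit α := Pool.Agent.H33.HD.RF.lim_of_cof hα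
  obtain ⟨B, hB, hBl, e, he⟩ := All.vg α hlim
  have hspec : ∀ i < (succ lam).ord, ∀ γ < α, Sz lam (en (cd en lam (z i) γ)) ∧
      rst (z i) γ ∈ en (cd en lam (z i) γ) := by
    intro i hi γ hγ
    obtain ⟨W, hW, hWs, hWm⟩ := (hLB _ (hz i hi)).2 γ hγ
    obtain ⟨c, rfl⟩ := (hen.od _).1 hW
    exact csInf_mem (s := {c | Sz lam (en c) ∧ rst (z i) γ ∈ en c}) ⟨c, hWs, hWm⟩
  have hl0 : (0 : Ordinal.{u}) < lam.ord := by
    have h := Cardinal.ord_lt_ord.2 (zero_lt_one.trans h1)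
    rwa [Cardinal.ord_zero] at h
  -- an enumeration of the small sets
  have hw : ∀ c : Ordinal.{u}, ∃ w : Ordinal.{u} → ZFSet.{u}, Sz lam (en c) →
      ∀ x ∈ en c, ∃ a < lam.ord, x = w a := by
    intro c
    by_cases h : Sz lam (en c)
    · obtain ⟨w, hw⟩ := h
      exact ⟨w, fun _ => hw⟩
    · exact ⟨fun _ => ∅, fun h' => absurd h' h⟩
  choose w hw using hw
  have hidx : ∀ (c : Ordinal.{u}) (x : ZFSet.{u}), ∃ a < lam.ord, Sz lam (en c) → x ∈ en c →
      x = w c a := by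
    intro c x
    by_cases h : Sz lam (en c) ∧ x ∈ en c
    · obtain ⟨a, ha, h2⟩ := hw c h.1 x h.2
      exact ⟨a, ha, fun _ _ => h2⟩
    · exact ⟨0, hl0, fun h1 h2 => absurd ⟨h1, h2⟩ h⟩
  choose idx hidx1 hidx2 using hidx
  -- the colours
  let k : Ordinal.{u} → (α.cof.ord.ToType → lam.ord.ToType) := fun i t =>
    Ordinal.ToType.mk ⟨idx (cd en lam (z i) (e (Ordinal.ToType.toOrd t).1))
      (rst (z i) (e (Ordinal.ToType.toOrd t).1)), hidx1 _ _⟩
  have hC : #(α.cof.ord.ToType → lam.ord.ToType) ≤ lam := by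
    rw [← Cardinal.power_def, Cardinal.mk_ord_toType, Cardinal.mk_ord_toType, hlam]
  obtain ⟨i, i', hii, hi', hk, hF⟩ := hAN α.cof lam hα.le h1 hlam
    (fun i a => cd en lam (z i) (e a)) _ k hC
  have hi : i < (succ lam).ord := hii.trans hi'
  have hagree : ∀ γ ∈ B, ¬ cd en lam (z i) γ < cd en lam (z i') γ → rst (z i) γ = rst (z i') γ := by
    intro γ hγ hnot
    obtain ⟨a, ha, hea⟩ := he γ hγ
    have h2 : cd en lam (z i) γ = cd en lam (z i') γ := by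
      refine le_antisymm ?_ (not_lt.1 hnot)
      have := hF a ha
      simp only [hea] at this
      exact this
    have h3 := congrFun hk (Ordinal.ToType.mk ⟨a, ha⟩)
    simp only [k] at h3
    have h4 := Ordinal.ToType.mk.injective h3
    have h5 := congrArg Subtype.val h4
    have h6 : (Ordinal.ToType.toOrd (Ordinal.ToType.mk ⟨a, ha⟩)).1 = a := by
      simp [Ordinal.ToType.toOrd]
    simp only [h6, hea] at h5
    have g1 := hidx2 _ (rst (z i) γ) (hspec i hi γ (hBl γ hγ)).1 (hspec i hi γ (hBl γ hγ)).2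
    have g2 := hidx2 _ (rst (z i') γ) (hspec i' hi' γ (hBl γ hγ)).1 (hspec i' hi' γ (hBl γ hγ)).2
    rw [g1, g2, h5, h2]
  have hne : z i ≠ z i' := fun h => hii.ne (hinj i hi i' hi' h)
  apply hne
  have hunb : ∀ a < α, ∃ γ, a < γ ∧ γ < α ∧ rst (z i) γ = rst (z i') γ := by
    intro a ha
    have hC : Clb α (B ∩ Ioi a) := by
      refine ⟨fun b hb => ?_, fun x hx h0 hx2 => ⟨?_, ?_⟩⟩
      · obtain ⟨c, hc, h1, h2⟩ := hB.unb (max a b) (max_lt ha hb)
        exact ⟨c, hc, (le_max_right _ _).trans_lt h1, h2, (le_max_left _ _).trans_lt h1⟩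
      · refine hB.cls x hx h0 fun y hy => ?_
        obtain ⟨c, hc, h1, h2⟩ := hx2 y hy
        exact ⟨c, hc, h1, h2.1⟩
      · obtain ⟨c, hc, h1, h2⟩ := hx2 0 h0
        exact lt_trans h2.2 hc
    obtain ⟨γ, hγ, hγC, hγ1, -⟩ := hpos _ (hz i hi) _ (hz i' hi') _ hC
    exact ⟨γ, hγC.2, hγ, hagree γ hγC.1 hγ1⟩
  have key : ∀ i j, i < (succ lam).ord → j < (succ lam).ord →
      (∀ a < α, ∃ γ, a < γ ∧ γ < α ∧ rst (z i) γ = rst (z j) γ) → ∀ x ∈ z i, x ∈ z j := by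
    intro i j hi hj h x hx
    obtain ⟨a, ha, y, rfl⟩ := (hLB _ (hz i hi)).1 x hx
    obtain ⟨γ, h1, h2, h3⟩ := h a ha
    have h4 : ZFSet.pair a.toZFSet y ∈ rst (z i) γ :=
      Pool.Agent.H45.NF.mem_rst.2 ⟨hx, a, h1, y, rfl⟩
    rw [h3] at h4
    exact (Pool.Agent.H45.NF.mem_rst.1 h4).1
  ext x
  exact ⟨key i i' hi hi' hunb x, key i' i hi' hi (fun a ha => by
    obtain ⟨γ, h1, h2, h3⟩ := hunb a ha
    exact ⟨γ, h1, h2, h3.symm⟩) x⟩

end Pool.Agent.H45.CF
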