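import Pool.Agent.H45.CF.FO

/-!
# FA. Functions of large cofinality in the first case
-/

open Ordinal Cardinal Order Set
open scoped ZFSet

universe u

namespace Pool.Agent.H45.CF

open _root_.HD HD.NF HD.CF Pool.Agent.H45.NF

theorem hod_snd {x y : ZFSet.{u}} (h : HOD (ZFSet.pair x y)) : HOD y := by
  have h1 : HOD ({x, y} : ZFSet.{u}) := (hod_iff.1 h).2 _ (by
    unfold ZFSet.pair
    exact ZFSet.mem_pair.2 (Or.inr rfl))
  exact (hod_iff.1 h1).2 _ (ZFSet.mem_pair.2 (Or.inr rfl))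

theorem pf_fa (hSR : HD.CF.T_SR.{u}) : HD.CF.T_FA.{u} := by
  intro δ hδ hA θ f hf hθ
  obtain ⟨⟨y, hfy⟩, hfr⟩ := hf
  obtain ⟨D, hD, hDr, hDs, hD0⟩ := ext_card hδ
  have hθ0 : ℵ₀ < θ.cof := hD0.trans_le (Cardinal.ord_le_ord.1 (by rw [← hD]; exact hθ))
  have hlim : IsSuccLimit θ := Pool.Agent.H33.HD.RF.lim_of_cof hθ0
  obtain ⟨en, hen⟩ := All.en.{u}
  let g : Ordinal.{u} → Ordinal.{u} := fun a => sInf {c | ZFSet.pair a.toZFSet (en c) ∈ f}
  have hg : ∀ a < θ, ZFSet.pair a.toZFSet (en (g a)) ∈ f := by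
    intro a ha
    obtain ⟨z, hz, -⟩ := hfy.2 a.toZFSet (toZFSet_mem_toZFSet_iff.2 ha)
    have h1 : HOD (ZFSet.pair a.toZFSet z) :=
      (hod_iff.1 (hfr (succ a) (hlim.succ_lt ha))).2 _ (mem_rst.2 ⟨hz, a, lt_succ a, z, rfl⟩)
    obtain ⟨c, hc⟩ := (hen.od _).1 (hod_snd h1).od
    exact csInf_mem (s := {c | ZFSet.pair a.toZFSet (en c) ∈ f}) ⟨c, by
      show ZFSet.pair a.toZFSet (en c) ∈ f
      rw [hc]; exact hz⟩
  let R : Ordinal.{u} → Ordinal.{u} → Prop := fun a c => a < θ ∧ c = g a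
  have hb : ∀ a c, R a c → c < succ (⨆ i : Iio θ, g i.1) := by
    rintro a c ⟨ha, rfl⟩
    exact lt_succ_of_le (Ordinal.le_iSup (fun i : Iio θ => g i.1) ⟨a, ha⟩)
  have hR : ∀ ξ < θ, DR fun a c => a < ξ ∧ R a c := by
    intro ξ hξ
    have hF : OD (rst f ξ) := (hfr ξ hξ).od
    have h0 : DZ.{u} fun v => (v 0).IsOrdinal ∧ ZFSet.pair (v 1) (en (v 0).rank) ∈ rst f ξ :=
      dz_en' hen (R := fun x v => ZFSet.pair (v 1) x ∈ rst f ξ) 0
        (DZ.od (R := fun b v => ZFSet.pair (v 2) (v 0) ∈ b) hF (loc_pmem 3 1 0).dz)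
    have h1 := dz_sInf (S := fun c v => c.IsOrdinal ∧ ZFSet.pair (v 0) (en c.rank) ∈ rst f ξ) h0
    have h2 : DO.{u} fun w => w 0 < ξ ∧ (w 0 < θ ∧ (((w 1).toZFSet).IsOrdinal ∧
        ((w 1).toZFSet).rank = sInf {c : Ordinal.{u} | (c.toZFSet).IsOrdinal ∧
          ZFSet.pair (w 0).toZFSet (en (c.toZFSet).rank) ∈ rst f ξ})) :=
      (DO.ltc 0 ξ).and ((DO.ltc 0 θ).and
        ((h1.ren fun n => if n = 0 then 1 else 0).do.congr fun w => Iff.rfl))
    refine h2.congr fun w => ?_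
    refine and_congr_right fun hw => and_congr_right fun _ => ?_
    simp only [rank_toZFSet, ZFSet.isOrdinal_toZFSet, true_and]
    have h3 : {c : Ordinal.{u} | ZFSet.pair (w 0).toZFSet (en c) ∈ rst f ξ} =
        {c | ZFSet.pair (w 0).toZFSet (en c) ∈ f} := by
      ext c
      simp only [Set.mem_ofPred_eq]
      rw [mem_rst]
      exact ⟨fun h => h.1, fun h => ⟨h, w 0, hw, _, rfl⟩⟩
    rw [h3]
  obtain ⟨Q, hQ, hQ2⟩ := hSR δ hδ hA θ hθ _ R hb hR
  have hOD : OD f := by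
    refine OD.of_mem (P := fun v => ∃ a c : ZFSet.{u}, a.IsOrdinal ∧ (c.IsOrdinal ∧
      (Q (cons a fun _ => c) ∧ v 0 = ZFSet.pair a (en c.rank)))) ?_ fun v => ?_
    · refine DZ.ex (DZ.ex (R := fun c v => (v 0).IsOrdinal ∧ (c.IsOrdinal ∧
        (Q (cons (v 0) fun _ => c) ∧ v 1 = ZFSet.pair (v 0) (en c.rank)))) ((DZ.ord 1).and ?_))
      refine dz_en' hen (R := fun x v => Q (cons (v 1) fun _ => v 0) ∧
        v 2 = ZFSet.pair (v 1) x) 0 (DZ.and ?_ (loc_pair 3 2 0).dz)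
      refine (hQ.ren (fun n => if n = 0 then 2 else 1)).congr fun v => ?_
      have e : (cons (v 2) fun _ => v 1) = fun n => v (if n = 0 then 2 else 1) := by
        funext n
        rcases n with _ | n <;> simp
      rw [← e]
    · have e : ∀ a b : Ordinal.{u}, (cons a.toZFSet fun _ => b.toZFSet) =
          ov (cns a fun _ => b) := by
        intro a b
        rw [ov_cns]
        rfl
      constructor
      · rintro ⟨a, c, ha, hc, hq, hv⟩
        obtain ⟨a, rfl⟩ := ord_of ha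
        obtain ⟨c, rfl⟩ := ord_of hc
        rw [e] at hq
        obtain ⟨h1, -, h2⟩ := (hQ2 (cns a fun _ => c)).2 hq
        simp only [cns_zero] at h1 h2
        have h3 : c = g a := h2
        rw [hv, rank_toZFSet, h3]
        exact hg a h1
      · intro hv
        obtain ⟨a, ha, z, hz⟩ := func_pairs hfy _ hv
        refine ⟨a.toZFSet, (g a).toZFSet, ZFSet.isOrdinal_toZFSet _, ZFSet.isOrdinal_toZFSet _,
          ?_, ?_⟩
        · rw [e]
          exact (hQ2 (cns a fun _ => g a)).1 ⟨ha, ha, rfl⟩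
        · rw [rank_toZFSet, hz]
          rw [hz] at hv
          have h1 := (hfy.2 a.toZFSet (toZFSet_mem_toZFSet_iff.2 ha)).unique hv (hg a ha)
          rw [h1]
  refine hod_iff.2 ⟨hOD, fun z hz => ?_⟩
  obtain ⟨a, ha, b, rfl⟩ := func_pairs hfy z hz
  exact (hod_iff.1 (hfr (succ a) (hlim.succ_lt ha))).2 _ (mem_rst.2 ⟨hz, a, lt_succ a, b, rfl⟩)

end Pool.Agent.H45.CF
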