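import Pool.Agent.H45.CF.FA
import Pool.Agent.H45.CF.AN

/-!
# FIN. Assembly
-/

open Ordinal Cardinal Order Set
open scoped ZFSet

universe u

namespace Pool.Agent.H45.CF

open _root_.HD HD.NF HD.CF Pool.Agent.H45.NF

theorem bl_mono {μ ν : Cardinal.{u}} (h : μ ≤ ν) {x : ZFSet.{u}} (hx : Bl μ x) : Bl ν x := by
  obtain ⟨Z, h1, ⟨e, h2⟩, h3⟩ := hx
  refine ⟨Z, h1, ⟨e, fun y hy => ?_⟩, h3⟩
  obtain ⟨a, ha, h4⟩ := h2 y hy
  exact ⟨a, ha.trans_le (Cardinal.ord_le_ord.2 h), h4⟩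

theorem hod_bl {μ : Cardinal.{u}} (h : 1 ≤ μ) {x : ZFSet.{u}} (hx : HOD x) : Bl μ x :=
  bl_mono h ((pf_b1 x).2 hx.od)

theorem pf_mn (hBL : T_BL.{u}) (hFO : T_FO.{u}) (hNB : HD.CF.T_NB.{u}) (hFA : HD.CF.T_FA.{u}) :
    T_MN.{u} := by
  have h0 : ∀ (μ : Cardinal.{u}) (θ : Ordinal.{u}), ℵ₀ < θ.cof → 1 < μ → μ ^ θ.cof = μ →
      ∀ f y, ZFSet.IsFunc θ.toZFSet y f → (∀ ξ < θ, Bl μ (rst f ξ)) → Bl μ f :=
    fun μ θ h1 h2 h3 f y hf h => hBL μ θ h1 h2 h3 f ⟨func_pairs hf, h⟩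
  have hHOD : ∀ δ : Ordinal.{u}, Extendible δ → ∀ θ f, Fr θ f → δ ≤ θ.cof.ord → HOD f := by
    intro δ hδ θ f hf hθ
    by_cases hA : CaseA δ
    · exact hFA δ hδ hA θ f hf hθ
    · rcases Pool.Agent.H54.NF.NFT.nft1 δ hδ with h | ⟨δ₀, h1, h2⟩
      · exact absurd h hA
      · obtain ⟨⟨y, hy⟩, hf⟩ := hf
        exact ((h2 θ (h1.trans_le hθ)).1 f y hy).1 hf
  refine ⟨h0, fun δ hδ => ⟨fun θ f hf hθ => ?_, hHOD δ hδ, hFO δ hδ, fun hA => ?_⟩⟩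
  · obtain ⟨D, hD, hDr, hDs, hD0⟩ := ext_card hδ
    rcases le_or_gt δ θ.cof.ord with h | h
    · refine ⟨1, ?_, hod_bl le_rfl (hHOD δ hδ θ f hf h)⟩
      rw [hD]
      exact Cardinal.ord_lt_ord.2 (Cardinal.one_lt_aleph0.trans hD0)
    · rw [hD] at h
      have h1 : (1 : Cardinal.{u}) < 2 ^ θ.cof :=
        (Cardinal.one_lt_aleph0.trans hθ).trans (Cardinal.cantor _)
      refine ⟨2 ^ θ.cof, ?_, ?_⟩
      · rw [hD]
        exact Cardinal.ord_lt_ord.2 (hDs.isStrongPrelimit (Cardinal.ord_lt_ord.1 h))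
      · obtain ⟨⟨y, hy⟩, hf⟩ := hf
        refine h0 _ θ hθ h1 ?_ f y hy fun ξ hξ => hod_bl h1.le (hf ξ hξ)
        rw [← Cardinal.power_mul, Cardinal.mul_eq_self hθ.le]
  · rcases Pool.Agent.H54.NF.NFT.nft1 δ hδ with h | ⟨δ₁, h1, h2⟩
    · exact absurd h hA
    obtain ⟨D, hD, hDr, hDs, hD0⟩ := ext_card hδ
    have hl1 : (succ ℵ₀ : Cardinal.{u}).ord < δ := by
      rw [hD]
      refine Cardinal.ord_lt_ord.2 ?_
      exact lt_of_le_of_lt (succ_le_of_lt (Cardinal.cantor ℵ₀)) (hDs.isStrongPrelimit hD0)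
    rcases All.m2 δ hδ with h | h
    · exact absurd h hA
    obtain ⟨δ₀, h3, h4, h5⟩ := h (max δ₁ (succ ℵ₀ : Cardinal.{u}).ord) (max_lt h1 hl1)
    refine ⟨δ₀, h3, fun θ hθ => h2 θ (((le_max_left _ _).trans_lt h4).trans hθ),
      fun K hK hδK => ?_⟩
    obtain ⟨C, hC, hC2⟩ := h5 K hK hδK
    have hK1 : (succ ℵ₀ : Cardinal.{u}).ord < K.ord := ((le_max_right _ _).trans_lt h4).trans hδK
    have hK0 : ℵ₀ < K := (lt_succ _).trans (Cardinal.ord_lt_ord.1 hK1)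
    have hKc : K.ord.cof = K := hK.cof_ord
    have hlim : IsSuccLimit K.ord := Pool.Agent.H33.HD.RF.lim_of_cof (by rw [hKc]; exact hK0)
    refine ⟨C ∩ Ioi (succ ℵ₀ : Cardinal.{u}).ord,
      All.ci K.ord _ _ (by rw [hKc]; exact hK0) hC (clb_ioi hlim hK1), fun α hα hαK s hs μ hμ => ?_⟩
    obtain ⟨g1, g2, g3⟩ := hC2 α hα.1 hαK
    have g4 : ℵ₀ < α.card := by
      have h6 : (succ ℵ₀ : Cardinal.{u}) ≤ α.card := by
        have h7 := Ordinal.card_le_card (le_of_lt hα.2)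
        rwa [Cardinal.card_ord] at h7
      exact (lt_succ _).trans_le h6
    exact hNB α μ s g2 g4 hμ hs

end Pool.Agent.H45.CF
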