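import Pool.Agent.H45.CF.Targets

/-!
# TDX. Threads through coherent sequences of HOD
-/

open Ordinal Cardinal Order Set
open scoped ZFSet

universe u

namespace Pool.Agent.H45.CF

open _root_.HD HD.NF HD.CF
open Pool.Agent.H54.NF.TD (thread hod_snd)

/-- Threads in HOD. -/
theorem tdx {D : Cardinal.{u}} {lam : Ordinal.{u}} (hD0 : ℵ₀ < D) (hD : D ≤ lam.cof)
    {W : Ultrafilter Ordinal.{u}} (hW : WN D lam W) (hN : ∀ f, Fr lam f → HOD f) : HThr lam := by
  intro F hFH hF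
  obtain ⟨T, hT, hTi⟩ := thread hD0 hD hW hF
  refine ⟨T, ?_, hT⟩
  classical
  -- the characteristic function
  obtain ⟨f, hf⟩ : ∃ f : ZFSet.{u}, f = gr (fun a => if a.toZFSet ∈ T then
    (1 : Ordinal.{u}).toZFSet else (0 : Ordinal.{u}).toZFSet) lam := ⟨_, rfl⟩
  have hpf : ∀ a b : Ordinal.{u}, ZFSet.pair a.toZFSet b.toZFSet ∈ f ↔ a < lam ∧
      ((a.toZFSet ∈ T ∧ b = 1) ∨ (a.toZFSet ∉ T ∧ b = 0)) := by
    intro a b
    rw [hf, pair_mem_gr]
    refine and_congr_right fun _ => ?_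
    by_cases h : a.toZFSet ∈ T
    · simp only [h, if_true, true_and, not_true, false_and, or_false]
      exact ⟨fun he => toZFSet_injective he, fun he => by rw [he]⟩
    · simp only [h, if_false, false_and, not_false_eq_true, true_and, false_or]
      exact ⟨fun he => toZFSet_injective he, fun he => by rw [he]⟩
  have hfn : ZFSet.IsFunc lam.toZFSet (2 : Ordinal.{u}).toZFSet f := by
    have h2 : ∀ a : Ordinal.{u}, (if a.toZFSet ∈ T then
        (1 : Ordinal.{u}).toZFSet else (0 : Ordinal.{u}).toZFSet) ∈ (2 : Ordinal.{u}).toZFSet := by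
      intro a
      by_cases h : a.toZFSet ∈ T
      · simp only [h, if_true]
        exact toZFSet_mem_toZFSet_iff.2 (by norm_num)
      · simp only [h, if_false]
        exact toZFSet_mem_toZFSet_iff.2 (by norm_num)
    refine ⟨fun p hp => ?_, fun z hz => ?_⟩
    · rw [hf, mem_gr] at hp
      obtain ⟨b, hb, rfl⟩ := hp
      exact ZFSet.pair_mem_prod.2 ⟨toZFSet_mem_toZFSet_iff.2 hb, h2 b⟩
    · obtain ⟨a, ha, rfl⟩ := mem_toZFSet_iff.1 hz
      refine ⟨if a.toZFSet ∈ T then (1 : Ordinal.{u}).toZFSet else (0 : Ordinal.{u}).toZFSet,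
        ?_, fun y hy => ?_⟩
      · show ZFSet.pair a.toZFSet _ ∈ f
        rw [hf]
        exact pair_mem_gr.2 ⟨ha, rfl⟩
      · rw [hf] at hy
        exact (pair_mem_gr.1 hy).2
  have hH : HOD f := by
    refine hN f ⟨⟨_, hfn⟩, fun ξ hξ => ?_⟩
    obtain ⟨a, ha, hal, C, hC, hξa, hTC⟩ := hTi ξ hξ
    have hCH : HOD C := hod_snd hFH hC
    have hDS : DS {b : Ordinal.{u} | b.toZFSet ∈ C} := hCH.od.ds
    have hDR : DR fun b i => b < ξ ∧ ((b.toZFSet ∈ C ∧ i = 1) ∨ (b.toZFSet ∉ C ∧ i = 0)) :=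
      (DO.ltc 0 ξ).and (((DO.s1 (X := fun b => b.toZFSet ∈ C) hDS 0).and (DO.eqc 1 1)).or
        ((DO.s1 (X := fun b => b.toZFSet ∈ C) hDS 0).not.and (DO.eqc 1 0)))
    have he : rst f ξ = rs ξ 2 fun b i => b < ξ ∧
        ((b.toZFSet ∈ C ∧ i = 1) ∨ (b.toZFSet ∉ C ∧ i = 0)) := by
      have hbC : ∀ b < ξ, (b.toZFSet ∈ C ↔ b.toZFSet ∈ T) := by
        intro b hb
        rw [← hTC, ZFSet.mem_inter]
        exact ⟨fun h => h.1, fun h => ⟨h, toZFSet_mem_toZFSet_iff.2 (hb.trans hξa)⟩⟩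
      ext p
      rw [mem_rs]
      unfold rst
      rw [ZFSet.mem_sep]
      constructor
      · rintro ⟨h1, b, hb, y, rfl⟩
        have h2 := h1
        rw [hf, pair_mem_gr] at h2
        have hy : ∃ i : Ordinal.{u}, y = i.toZFSet := by
          rw [h2.2]
          by_cases h : b.toZFSet ∈ T
          · exact ⟨1, by simp only [h, if_true]⟩
          · exact ⟨0, by simp only [h, if_false]⟩
        obtain ⟨i, rfl⟩ := hy
        have h3 := (hpf b i).1 h1
        refine ⟨b, hb, i, ?_, ⟨hb, ?_⟩, rfl⟩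
        · rcases h3.2 with h | h
          · rw [h.2]; norm_num
          · rw [h.2]; norm_num
        · rw [hbC b hb]
          exact h3.2
      · rintro ⟨b, hb, i, hi, ⟨-, h1⟩, rfl⟩
        refine ⟨(hpf b i).2 ⟨hb.trans hξ, ?_⟩, b, hb, _, rfl⟩
        rw [← hbC b hb]
        exact h1
    rw [he]
    exact hod_rs hDR _ _
  have h1 : DS {a : Ordinal.{u} | ZFSet.pair a.toZFSet (1 : Ordinal.{u}).toZFSet ∈ f} :=
    DO.sect1 (R := fun i a => ZFSet.pair a.toZFSet i.toZFSet ∈ f)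
      (DO.s2 (X := fun a i => ZFSet.pair a.toZFSet i.toZFSet ∈ f) hH.od.dr 1 0) 1
  have h2 : T = os lam {a : Ordinal.{u} | ZFSet.pair a.toZFSet (1 : Ordinal.{u}).toZFSet ∈ f} := by
    ext z
    rw [mem_os]
    constructor
    · intro hz
      obtain ⟨a, ha, rfl⟩ := mem_toZFSet_iff.1 (hT.sub hz)
      exact ⟨a, ha, (hpf a 1).2 ⟨ha, Or.inl ⟨hz, rfl⟩⟩, rfl⟩
    · rintro ⟨a, ha, h, rfl⟩
      rcases ((hpf a 1).1 h).2 with h | h
      · exact h.1
      · exact absurd h.2 one_ne_zero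
  rw [h2]
  exact hod_os h1 lam


end Pool.Agent.H45.CF
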