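import Pool.Agent.H45.CF.FIN
import Pool.Agent.H45.CF.TDX
import Pool.Agent.H45.CF.BL
import Pool.Agent.H45.CF.CZ
import Pool.Agent.H45.CF.UN
import Pool.Agent.H45.CF.SL

/-!
# The theorem, from the rows
-/

open Ordinal Cardinal Order Set
open scoped ZFSet

universe u

namespace HD.CF

open HD.NF (rst Bl NoNew HThr)

/-- The theorem. -/
def Goal : Prop :=
  (∀ (μ : Cardinal.{u}) (θ : Ordinal.{u}), ℵ₀ < θ.cof → 1 < μ → μ ^ θ.cof = μ →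
    ∀ f y, ZFSet.IsFunc θ.toZFSet y f → (∀ ξ < θ, Bl μ (rst f ξ)) → Bl μ f) ∧
  ∀ δ : Ordinal.{u}, Extendible δ →
    (∀ θ f, Fr θ f → ℵ₀ < θ.cof → ∃ μ : Cardinal.{u}, μ.ord < δ ∧ Bl μ f) ∧
    (∀ θ : Ordinal.{u}, δ ≤ θ.cof.ord → (∀ f, Fr θ f → HOD f) ∧ HThr θ) ∧
    (CaseA δ ↔ ∀ θ f, Fr θ f → θ.cof = ℵ₀ → ∃ μ : Cardinal.{u}, μ.ord < δ ∧ Bl μ f) ∧
    (¬ CaseA δ → ∃ δ₀ < δ, (∀ θ : Ordinal.{u}, δ₀ < θ.cof.ord → NoNew θ ∧ HThr θ) ∧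
      ∀ K : Cardinal.{u}, K.IsRegular → δ₀ < K.ord → NoS K)

end HD.CF

namespace Pool.Agent.H45.CF

open _root_.HD HD.NF HD.CF Pool.Agent.H45.NF

theorem exists_cof_fun {α : Ordinal.{u}} (hα : α.cof = ℵ₀) : ∃ s, Cof α s := by
  obtain ⟨t, ht1, ht2⟩ := cof_seq hα
  let T : Ordinal.{u} → Ordinal.{u} := Function.extend (fun n : ℕ => (n : Ordinal.{u})) t 0
  have hT : ∀ n : ℕ, T n = t n := fun n => Nat.cast_injective.extend_apply t 0 n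
  refine ⟨gr (fun a => (T a).toZFSet) ω, ⟨fun p hp => ?_, fun z hz => ?_⟩, fun b hb => ?_⟩
  · obtain ⟨a, ha, rfl⟩ := mem_gr.1 hp
    obtain ⟨n, rfl⟩ := Ordinal.lt_omega0.1 ha
    refine ZFSet.pair_mem_prod.2 ⟨toZFSet_mem_toZFSet_iff.2 ha, ?_⟩
    rw [hT]
    exact toZFSet_mem_toZFSet_iff.2 (ht1 n)
  · obtain ⟨a, ha, rfl⟩ := mem_toZFSet_iff.1 hz
    exact ⟨(T a).toZFSet, pair_mem_gr.2 ⟨ha, rfl⟩, fun y hy => (pair_mem_gr.1 hy).2⟩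
  · obtain ⟨n, hn⟩ := ht2 b hb
    refine ⟨n, t n, hn.le, pair_mem_gr.2 ⟨Ordinal.natCast_lt_omega0 n, ?_⟩⟩
    rw [hT]

theorem goal_of (hFS : HD.CF.T_FS.{u}) (hMN : T_MN.{u}) : Goal.{u} := by
  refine ⟨hMN.1, fun δ hδ => ?_⟩
  obtain ⟨h1, h2, h3, h4⟩ := hMN.2 δ hδ
  obtain ⟨D, hD, hDr, hDs, hD0⟩ := ext_card hδ
  refine ⟨h1, fun θ hθ => ⟨fun f hf => h2 θ f hf hθ, ?_⟩, ⟨h3, fun h => ?_⟩, h4⟩
  · have hDθ : D ≤ θ.cof := Cardinal.ord_le_ord.1 (by rw [← hD]; exact hθ)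
    obtain ⟨W, hW⟩ := Pool.Agent.H54.NF.GE.X D (by rw [← hD]; exact hδ) θ hDθ
    exact tdx hD0 hDθ hW fun f hf => h2 θ f hf hθ
  · by_contra hA
    obtain ⟨δ₀, h5, -, h6⟩ := h4 hA
    have hK : (succ D).IsRegular := Cardinal.isRegular_succ hD0.le
    have hKc : (succ D).ord.cof = succ D := hK.cof_ord
    have hK0 : ℵ₀ < succ D := hD0.trans (lt_succ D)
    have hδK : δ < (succ D).ord := by
      rw [hD]
      exact Cardinal.ord_lt_ord.2 (lt_succ D)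
    have hlim : IsSuccLimit (succ D).ord :=
      Pool.Agent.H33.HD.RF.lim_of_cof (by rw [hKc]; exact hK0)
    obtain ⟨C, hC, hC2⟩ := h6 (succ D) hK (h5.trans hδK)
    obtain ⟨α, hα1, hα2, -, hα3⟩ := All.vc ℵ₀ (succ D).ord Cardinal.isRegular_aleph0
      (by rw [hKc]; exact hK0) _ (All.ci _ _ _ (by rw [hKc]; exact hK0) hC (clb_ioi hlim hδK))
    have hα4 : α.cof = ℵ₀ := Cardinal.ord_injective hα3
    obtain ⟨s, hs⟩ := exists_cof_fun hα4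
    obtain ⟨μ, hμ1, hμ2⟩ := h ω s (hFS s α hs.1) Ordinal.cof_omega0
    refine hC2 α hα2.1 hα1 s hs μ ?_ hμ2
    have h7 : μ < D := by
      rw [hD] at hμ1
      exact Cardinal.ord_lt_ord.1 hμ1
    refine h7.trans_le ?_
    have h8 := Ordinal.card_le_card (le_of_lt (show δ < α from hα2.2))
    rwa [hD, Cardinal.card_ord] at h8

theorem main (hFS : HD.CF.T_FS.{u}) (hPG : HD.CF.T_PG.{u}) (hUM : HD.CF.T_UM.{u})
    (hCV : HD.CF.T_CV.{u}) (hFW : HD.CF.T_FW.{u}) (hNB : HD.CF.T_NB.{u}) (hSR : HD.CF.T_SR.{u}) :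
    Goal.{u} :=
  goal_of hFS
    (pf_mn (pf_bl (pf_cz (pf_an hPG))) (pf_fo (pf_un hUM) hCV hFW) hNB (pf_fa hSR))

end Pool.Agent.H45.CF
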