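import Pool.Agent.H54.NF.NFT

/-!
# MP_e37c09_lc: functions all of whose proper initial segments are in HOD (all cofinalities).
Definitions and targets
-/

open Ordinal Cardinal Order Set
open scoped ZFSet

universe u

namespace HD.CF

open HD.NF (rst Sz Bl LB cd Lw w0)

/-! ## Statement-level definition -/

/-- `f` is a function on `θ`, and its proper initial segments are in HOD. -/
def Fr (θ : Ordinal.{u}) (f : ZFSet.{u}) : Prop :=
  (∃ y, ZFSet.IsFunc θ.toZFSet y f) ∧ ∀ ξ < θ, HOD (rst f ξ)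

/-! ## Functions of uncountable cofinality -/

/-- PG. The pigeonhole principle for positive sets. -/
def T_PG : Prop := ∀ (μ ρ : Ordinal.{u}), ℵ₀ < ρ.cof → ∀ C : Type u, #C < ρ.cof →
  ∀ (X : Set Ordinal.{u}) (g : Ordinal.{u} → C), Pos μ ρ X → ∃ c, Pos μ ρ {b | b ∈ X ∧ g b = c}

/-- AN. There are no `lam⁺` functions on `M` which decrease in one place, for each pair. -/
def T_AN : Prop := ∀ M lam : Cardinal.{u}, ℵ₀ ≤ M → 1 < lam → lam ^ M = lam →
  ∀ (F : Ordinal.{u} → Ordinal.{u} → Ordinal.{u}) (C : Type u) (k : Ordinal.{u} → C), #C ≤ lam →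
    ∃ i i', i < i' ∧ i' < (succ lam).ord ∧ k i = k i' ∧ ∀ a < M.ord, F i a ≤ F i' a

/-- CZ. The size of a set of sequences which are minimal with respect to each other. -/
def T_CZ : Prop := ∀ en : Ordinal.{u} → ZFSet.{u}, EN en → ∀ (lam : Cardinal.{u})
  (α : Ordinal.{u}) (Z : ZFSet.{u}), ℵ₀ < α.cof → 1 < lam → lam ^ α.cof = lam →
  (∀ f ∈ Z, LB lam α f) →
  (∀ f ∈ Z, ∀ g ∈ Z, Pos w0 α {γ | ¬ cd en lam f γ < cd en lam g γ}) → Sz lam Z

/-- BL. The theorem on functions of uncountable cofinality. -/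
def T_BL : Prop := ∀ (lam : Cardinal.{u}) (α : Ordinal.{u}), ℵ₀ < α.cof → 1 < lam →
  lam ^ α.cof = lam → ∀ f, LB lam α f → Bl lam f

/-! ## Definable partitions into stationary sets -/

/-- `s` is definable from ordinals and gives `K` many disjoint sets of ordinals of cofinality `ω`
which are stationary in the regular cardinal `K`. -/
structure Ptn (K : Cardinal.{u}) (s : Ordinal.{u} → Ordinal.{u} → Prop) : Prop where
  reg : K.IsRegular
  dr : DR s
  fn : ∀ b i i', s b i → s b i' → i = i'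
  pos : ∀ i < K.ord, Pos w0 K.ord {b | s b i}

/-- UM. The matrix of Ulam. -/
def T_UM : Prop := ∀ γ : Cardinal.{u}, ℵ₀ ≤ γ →
  (∀ β, γ.ord < β → β < (succ γ).ord → OntoHOD γ.ord β) → ∃ s, Ptn (succ γ) s

/-- UN. Partitions exist in the first case. -/
def T_UN : Prop := ∀ δ : Ordinal.{u}, CaseA δ → ∀ β, ∃ K s, β < K.ord ∧ δ < K.ord ∧ Ptn K s

/-- SL. Embeddings. -/
def T_SL : Prop := ∀ (δ : Ordinal.{u}) (K : Cardinal.{u}) s, Extendible δ → Ptn K s →
  δ < K.ord → ∀ β, ∃ η > β, ∃ θ j, Sol δ η θ j ℵ₀ K K.ord (rs K.ord K.ord s)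

/-- CV. All sets of a countable family are positive at some `β` of small cofinality. -/
def T_CV : Prop := ∀ (δ : Ordinal.{u}) (K : Cardinal.{u}) s, Extendible δ → Ptn K s →
  δ < K.ord → ∀ x : ℕ → Ordinal.{u}, (∀ n, x n < K.ord) →
    ∃ β < K.ord, ℵ₀ < β.cof ∧ β.cof.ord < δ ∧ ∀ n, Pos w0 β {b | s b (x n)}

/-- FW. The number of disjoint positive sets. -/
def T_FW : Prop := ∀ β : Ordinal.{u}, ℵ₀ < β.cof → ∀ s : Ordinal.{u} → Ordinal.{u} → Prop,
  (∀ b i i', s b i → s b i' → i = i') →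
    ∃ e : Ordinal.{u} → Ordinal.{u}, ∀ i, Pos w0 β {b | s b i} → ∃ a < β.cof.ord, e a = i

/-! ## The two cases -/

/-- FO. Functions of cofinality `ω` in the first case. -/
def T_FO : Prop := ∀ δ : Ordinal.{u}, Extendible δ → CaseA δ → ∀ θ f, Fr θ f → θ.cof = ℵ₀ →
  ∃ μ : Cardinal.{u}, μ.ord < δ ∧ Bl μ f

/-- `s` is a function from `ω` to `α` with unbounded values. -/
def Cof (α : Ordinal.{u}) (s : ZFSet.{u}) : Prop :=
  ZFSet.IsFunc (ω : Ordinal.{u}).toZFSet α.toZFSet s ∧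
    ∀ b < α, ∃ n c : Ordinal.{u}, b ≤ c ∧ ZFSet.pair n.toZFSet c.toZFSet ∈ s

/-- NB. Sequences which are cofinal in an ordinal which is regular in HOD. -/
def T_NB : Prop := ∀ (α : Ordinal.{u}) (μ : Cardinal.{u}) (s : ZFSet.{u}), RegHOD α →
  ℵ₀ < α.card → μ < α.card → Cof α s → ¬ Bl μ s

/-- FS. Finite sequences of ordinals are in HOD. -/
def T_FS : Prop := ∀ (s : ZFSet.{u}) (o : Ordinal.{u}),
  ZFSet.IsFunc (ω : Ordinal.{u}).toZFSet o.toZFSet s → Fr ω s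

/-- SR. Definability of relations from the definability of their parts, in the first case. -/
def T_SR : Prop := ∀ δ : Ordinal.{u}, Extendible δ → CaseA δ → ∀ θ : Ordinal.{u},
  δ ≤ θ.cof.ord → ∀ (lam : Ordinal.{u}) (R : Ordinal.{u} → Ordinal.{u} → Prop),
  (∀ a c, R a c → c < lam) → (∀ ξ < θ, DR fun a c => a < ξ ∧ R a c) → DR fun a c => a < θ ∧ R a c

/-- FA. Functions of large cofinality in the first case. -/
def T_FA : Prop := ∀ δ : Ordinal.{u}, Extendible δ → CaseA δ → ∀ θ f, Fr θ f →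
  δ ≤ θ.cof.ord → HOD f

/-! ## The theorem -/

/-- For club many `α < K` no function from `ω` to `α` with unbounded values is in an ordinal
definable set with fewer than `|α|` elements. -/
def NoS (K : Cardinal.{u}) : Prop := ∃ C, Clb K.ord C ∧ ∀ α ∈ C, α < K.ord →
  ∀ s, Cof α s → ∀ μ < α.card, ¬ Bl μ s

def T_MN : Prop :=
  (∀ (μ : Cardinal.{u}) (θ : Ordinal.{u}), ℵ₀ < θ.cof → 1 < μ → μ ^ θ.cof = μ →
    ∀ f y, ZFSet.IsFunc θ.toZFSet y f → (∀ ξ < θ, Bl μ (rst f ξ)) → Bl μ f) ∧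
  ∀ δ : Ordinal.{u}, Extendible δ →
    (∀ θ f, Fr θ f → ℵ₀ < θ.cof → ∃ μ : Cardinal.{u}, μ.ord < δ ∧ Bl μ f) ∧
    (∀ θ f, Fr θ f → δ ≤ θ.cof.ord → HOD f) ∧
    (CaseA δ → ∀ θ f, Fr θ f → θ.cof = ℵ₀ → ∃ μ : Cardinal.{u}, μ.ord < δ ∧ Bl μ f) ∧
    (¬ CaseA δ → ∃ δ₀ < δ, (∀ θ : Ordinal.{u}, δ₀ < θ.cof.ord → HD.NF.NoNew θ ∧ HD.NF.HThr θ) ∧
      ∀ K : Cardinal.{u}, K.IsRegular → δ₀ < K.ord → NoS K)

end HD.CF
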